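import Pool.Agent.P.MP_97b9bc_mp.S.All

set_option autoImplicit false
open MeasureTheory Pool.Agent.P.MP_97b9bc_mp

namespace Pool.Agent.Results.MP_97b9bc_mp.ExcessSharp

theorem result :
    (∀ ρ g, H1Root ρ g → Integrable (fun x => ρ x ^ (5 / 3 : ℝ)) ∧
      Integrable (fun x => 1 / ‖x‖ * ρ x) ∧
      Integrable (fun q : R3 × R3 => ρ q.1 * ρ q.2 / ‖q.1 - q.2‖)) ∧
    ∃ q : ℝ, 11.528 < q ∧ q < 11.53 ∧ ∀ A γ : ℝ, 0 < A → 0 < γ →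
      (∀ z : ℝ, 0 < z → ∃ ρ, IsGround A γ z ρ) ∧
      ∃ C : ℝ, ∀ z : ℝ, 0 < z → ∀ ρ, IsGround A γ z ρ →
        0 ≤ q * (A / γ) ^ (3 / 2 : ℝ) - ((∫ x, ρ x) - z) ∧
          q * (A / γ) ^ (3 / 2 : ℝ) - ((∫ x, ρ x) - z) ≤ C * z ^ (-((√73 - 7) / 6)) := by
  refine ⟨fun ρ g h => ?_, ?_⟩
  · have a := T.all_SOB ρ g h
    have b := a.integrable_rpow (by norm_num)
    exact ⟨b, Pool.Agent.P.MP_3d36e1_mp.integrable_V (by norm_num) one_pos a.nonneg a.L1 b,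
      a.coulomb⟩
  obtain ⟨q, h1, h2, h3⟩ := T.fin T.all_GLOB T.all_PQ T.all_VAL T.all_RATE T.all_LIM
    (T.num T.all_TLN T.all_PIECE T.all_INNER)
  refine ⟨q, h1, h2, fun A γ hA hγ => ⟨(h3 A γ hA hγ).1, ?_⟩⟩
  obtain ⟨C, hC⟩ := (h3 A γ hA hγ).2
  have hκ : 0 < (√73 - 7) / 6 := by
    have : (7 : ℝ) < √73 := Real.lt_sqrt_of_sq_lt (by norm_num)
    linarith
  refine ⟨C, fun z hz ρ hρ => ⟨sub_nonneg.2
    (S.fin hκ T.all_GLOB S.all_CMP S.all_ENC hA hγ hC hz hρ), ?_⟩⟩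
  linarith [(abs_le.1 (hC z hz ρ hρ)).1]

end Pool.Agent.Results.MP_97b9bc_mp.ExcessSharp
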